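import Mathlib
import Pool.Agent.Q283.PartCount

/-!
# The proportion of partitions associated to numerical semigroups tends to zero
-/

open Finset Filter Topology

namespace Pool.Agent.Results.MP_8c5ed8_co.LimitZero

open Pool.Agent.Q283.PartCount

/-- the partition with multiset of parts `M` is associated to a numerical semigroup -/
def IsAssoc (M : Multiset ℕ) : Prop :=
  ∃ (S : Set ℕ) (hfin : (Sᶜ).Finite), 0 ∈ S ∧ (∀ a ∈ S, ∀ b ∈ S, a + b ∈ S) ∧
    M = hfin.toFinset.val.map (fun g => {s ∈ S | s < g}.ncard)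

/-- number of partitions of size at most `n` -/
noncomputable def P (n : ℕ) : ℕ := ∑ m ∈ range (n + 1), Nat.card (Nat.Partition m)

/-- number of partitions of size at most `n` associated to numerical semigroups -/
noncomputable def S' (n : ℕ) : ℕ :=
  ∑ m ∈ range (n + 1), Nat.card {p : Nat.Partition m // IsAssoc p.parts}

/-- the necessary condition -/
def Bad (c : ℕ → ℕ) : Prop := ∃ k, 2 ≤ k ∧ 2 * (c 1 + 1) = ∑ j ∈ range k, (c (j + 1) + 1)

lemma bad_of_assoc {M : Multiset ℕ} (h : IsAssoc M) : Bad (fun i => M.count i) := by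
  classical
  obtain ⟨S, hfin, h0, hadd, rfl⟩ := h
  set N : ℕ → ℕ := fun t => {s ∈ S | s < t}.ncard with hN
  have hNfin : ∀ t, {s ∈ S | s < t}.Finite := fun t => (Set.finite_lt_nat t).subset (fun _ h => h.2)
  have hNmono : ∀ a b, a ≤ b → N a ≤ N b := by
    intro a b hab
    exact Set.ncard_le_ncard (fun s hs => ⟨hs.1, hs.2.trans_le hab⟩) (hNfin b)
  -- least positive element
  have hex : ∃ s, s ∈ S ∧ 0 < s := by
    by_contra hcon
    push Not at hcon
    have : (Set.univ : Set ℕ) ⊆ Sᶜ ∪ {0} := by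
      intro x _
      by_cases hx : x ∈ S
      · right
        have := hcon x hx
        simp
        omega
      · left; exact hx
    exact Set.infinite_univ ((hfin.union (Set.finite_singleton 0)).subset this)
  set s1 := Nat.find hex with hs1
  obtain ⟨hs1S, hs1pos⟩ := Nat.find_spec hex
  rw [← hs1] at hs1S hs1pos
  have hmin : ∀ s, s ∈ S → 0 < s → s1 ≤ s := fun s h1 h2 => Nat.find_min' hex ⟨h1, h2⟩
  clear_value s1
  have hcount : ∀ j, (hfin.toFinset.val.map N).count j =
      (hfin.toFinset.filter (fun g => j = N g)).card := by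
    intro j
    rw [Multiset.count_map]
    rfl
  set k := N (s1 + s1) with hk
  have hss : s1 + s1 ∈ S := hadd s1 hs1S s1 hs1S
  have hk2 : 2 ≤ k := by
    have h1 : ({0, s1} : Set ℕ).ncard = 2 := Set.ncard_pair (by omega)
    rw [← h1]
    apply Set.ncard_le_ncard _ (hNfin _)
    rintro x (rfl | rfl)
    · exact ⟨h0, by omega⟩
    · exact ⟨hs1S, by omega⟩
  refine ⟨k, hk2, ?_⟩
  simp only [hcount]
  -- gaps with `N g = 1`
  have hone : (hfin.toFinset.filter (fun g => 1 = N g)) = Ico 1 s1 := by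
    ext g
    rw [Finset.mem_filter, Set.Finite.mem_toFinset, Finset.mem_Ico]
    constructor
    · rintro ⟨hg, hg1⟩
      have hg0 : g ≠ 0 := fun e => hg (e ▸ h0)
      refine ⟨by omega, ?_⟩
      by_contra hcon
      push Not at hcon
      have hne : g ≠ s1 := fun e => hg (e ▸ hs1S)
      have h2 : ({0, s1} : Set ℕ).ncard = 2 := Set.ncard_pair (by omega)
      have h3 : ({0, s1} : Set ℕ).ncard ≤ N g := by
        apply Set.ncard_le_ncard _ (hNfin _)
        rintro x (rfl | rfl)
        · exact ⟨h0, by omega⟩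
        · exact ⟨hs1S, by omega⟩
      omega
    · rintro ⟨hg1, hg2⟩
      have hgS : g ∉ S := fun h => by
        have := hmin g h (by omega)
        omega
      refine ⟨hgS, ?_⟩
      have : {s ∈ S | s < g} = {0} := by
        ext x
        constructor
        · rintro ⟨hx1, hx2⟩
          by_contra hx0
          have hx0 : x ≠ 0 := hx0
          have := hmin x hx1 (by omega)
          omega
        · rintro rfl
          exact ⟨h0, by omega⟩
      simp only [hN]
      rw [this, Set.ncard_singleton]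
  have hsum : ∑ j ∈ range k, (hfin.toFinset.filter (fun g => j + 1 = N g)).card =
      (hfin.toFinset.filter (fun g => g < s1 + s1)).card := by
    rw [← Finset.card_biUnion]
    · congr 1
      ext g
      simp only [Finset.mem_biUnion, Finset.mem_range, Finset.mem_filter, Set.Finite.mem_toFinset]
      constructor
      · rintro ⟨j, hj, hg, hjg⟩
        refine ⟨hg, ?_⟩
        by_contra hcon
        push Not at hcon
        have hne : g ≠ s1 + s1 := fun e => hg (e ▸ hss)
        have h3 : N (s1 + s1) < N g := by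
          apply Set.ncard_lt_ncard _ (hNfin _)
          refine ⟨fun s hs => ⟨hs.1, hs.2.trans_le hcon⟩, fun hsub => ?_⟩
          have := hsub (show s1 + s1 ∈ {s ∈ S | s < g} from ⟨hss, by omega⟩)
          exact absurd this.2 (lt_irrefl _)
        omega
      · rintro ⟨hg, hlt⟩
        have hg0 : g ≠ 0 := fun e => hg (e ▸ h0)
        have h1 : 1 ≤ N g := by
          have h2 : ({0} : Set ℕ).ncard = 1 := Set.ncard_singleton 0
          rw [← h2]
          apply Set.ncard_le_ncard _ (hNfin _)
          rintro x rfl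
          exact ⟨h0, by omega⟩
        have h2 : N g ≤ k := hNmono _ _ hlt.le
        exact ⟨N g - 1, by omega, hg, by omega⟩
    · intro i _ j _ hij
      rw [Function.onFun, Finset.disjoint_left]
      intro g h1 h2
      rw [Finset.mem_filter] at h1 h2
      omega
  have hsplit : (hfin.toFinset.filter (fun g => g < s1 + s1)).card + k = s1 + s1 := by
    have h1 : k = ((range (s1 + s1)).filter (fun g => g ∈ S)).card := by
      rw [hk, ← Set.ncard_coe_finset]
      simp only [hN]
      congr 1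
      ext x
      simp [and_comm]
    have h2 : (hfin.toFinset.filter (fun g => g < s1 + s1)) =
        (range (s1 + s1)).filter (fun g => ¬ g ∈ S) := by
      ext x
      simp [and_comm]
    rw [h1, h2, add_comm, Finset.card_filter_add_card_filter_not, Finset.card_range]
  rw [Finset.sum_add_distrib, hsum, hone, Nat.card_Ico]
  simp only [Finset.sum_const, Finset.card_range, smul_eq_mul, mul_one]
  omega

/-! ### Comparison with multiplicity functions -/

lemma parts_mem {n m : ℕ} (hm : m ≤ n) (p : Nat.Partition m) :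
    (fun i => p.parts.count i) ∈ Pt n ∧ wt n (fun i => p.parts.count i) = m := by
  classical
  have hle : ∀ i ∈ p.parts, i ≤ n := by
    intro i hi
    have := Multiset.single_le_sum (s := p.parts) (fun _ _ => Nat.zero_le _) i hi
    rw [p.parts_sum] at this
    omega
  have hwt : wt n (fun i => p.parts.count i) = m := by
    conv_rhs => rw [← p.parts_sum, Finset.sum_multiset_count]
    unfold wt
    symm
    simp only [smul_eq_mul]
    rw [Finset.sum_subset (s₂ := range (n + 1))]
    · apply Finset.sum_congr rfl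
      intro i _
      ring
    · intro i hi
      rw [Multiset.mem_toFinset] at hi
      have := hle i hi
      rw [Finset.mem_range]
      omega
    · intro i _ hi
      rw [Multiset.mem_toFinset] at hi
      rw [Multiset.count_eq_zero.mpr hi, zero_mul]
  refine ⟨⟨⟨?_, fun i hi => ?_⟩, by rw [hwt]; exact hm⟩, hwt⟩
  · simp only
    rw [Multiset.count_eq_zero]
    intro h
    exact absurd (p.parts_pos h) (lt_irrefl _)
  · simp only
    rw [Multiset.count_eq_zero]
    intro h
    have := hle i h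
    omega

lemma sum_fibers {n : ℕ} {T : Set (ℕ → ℕ)} (hT : T ⊆ Pt n) :
    ∑ m ∈ range (n + 1), {c ∈ T | wt n c = m}.ncard = T.ncard := by
  classical
  have hfin : T.Finite := (finite_Pt n).subset hT
  have h1 : T.ncard = hfin.toFinset.card := Set.ncard_eq_toFinset_card T hfin
  rw [h1, Finset.card_eq_sum_card_fiberwise (t := range (n + 1)) (f := wt n)]
  · apply Finset.sum_congr rfl
    intro m _
    rw [← Set.ncard_coe_finset]
    congr 1
    ext c
    simp
  · intro c hc
    rw [Finset.mem_coe, Set.Finite.mem_toFinset] at hc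
    rw [Finset.mem_coe, Finset.mem_range]
    have := (hT hc).2
    omega

lemma S'_le (n : ℕ) : S' n ≤ {c ∈ Pt n | Bad c}.ncard := by
  rw [← sum_fibers (n := n) (T := {c ∈ Pt n | Bad c}) (fun c hc => hc.1), S']
  apply Finset.sum_le_sum
  intro m hm
  rw [Finset.mem_range] at hm
  rw [← Nat.card_coe_set_eq]
  have hfin : {c ∈ {c ∈ Pt n | Bad c} | wt n c = m}.Finite :=
    (finite_Pt n).subset (fun c hc => hc.1.1)
  have : Finite {c ∈ {c ∈ Pt n | Bad c} | wt n c = m} := hfin
  apply Nat.card_le_card_of_injective (fun p : {p : Nat.Partition m // IsAssoc p.parts} =>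
    (⟨fun i => p.1.parts.count i, ⟨⟨(parts_mem (by omega) p.1).1, bad_of_assoc p.2⟩,
      (parts_mem (by omega) p.1).2⟩⟩ : {c ∈ {c ∈ Pt n | Bad c} | wt n c = m}))
  intro p q h
  have h1 := congrArg Subtype.val h
  apply Subtype.ext
  apply Nat.Partition.ext
  apply Multiset.ext.mpr
  intro i
  exact congrFun h1 i

/-- the multiset of parts of a multiplicity function -/
def toPart (n : ℕ) (c : ℕ → ℕ) : Multiset ℕ := ∑ i ∈ range (n + 1), Multiset.replicate (c i) i

lemma count_toPart {n : ℕ} {c : ℕ → ℕ} (hc : Ok n c) (j : ℕ) : (toPart n c).count j = c j := by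
  unfold toPart
  rw [Multiset.count_sum']
  simp only [Multiset.count_replicate]
  by_cases hj : j ∈ range (n + 1)
  · rw [Finset.sum_ite_eq' , if_pos hj]
  · rw [Finset.sum_ite_eq', if_neg hj]
    rw [Finset.mem_range] at hj
    exact (hc.2 j (by omega)).symm

lemma sum_toPart (n : ℕ) (c : ℕ → ℕ) : (toPart n c).sum = wt n c := by
  unfold toPart wt
  rw [Multiset.sum_sum]
  apply Finset.sum_congr rfl
  intro i _
  rw [Multiset.sum_replicate, smul_eq_mul, mul_comm]

lemma le_P (n : ℕ) : (Pt n).ncard ≤ P n := by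
  rw [← sum_fibers (n := n) (T := Pt n) (fun c hc => hc), P]
  apply Finset.sum_le_sum
  intro m hm
  rw [← Nat.card_coe_set_eq]
  apply Nat.card_le_card_of_injective (fun c : {c ∈ Pt n | wt n c = m} =>
    (⟨toPart n c.1, by
      intro i hi
      by_contra h0
      have : i = 0 := by omega
      rw [this, ← Multiset.count_pos, count_toPart c.2.1.1, c.2.1.1.1] at hi
      exact absurd hi (lt_irrefl _), by rw [sum_toPart]; exact c.2.2⟩ : Nat.Partition m))
  intro c d h
  have h1 := congrArg Nat.Partition.parts h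
  apply Subtype.ext
  funext i
  have h2 := congrArg (Multiset.count i) h1
  simp only at h2
  rwa [count_toPart c.2.1.1, count_toPart d.2.1.1] at h2

/-! ### The set of bad multiplicity functions -/

lemma bad_le {n L : ℕ} (hn : L + 2 ≤ n) :
    {c ∈ Pt n | Bad c}.ncard ≤ (L + 3) * (Pe n).ncard + (AA n L).ncard := by
  classical
  set B : ℕ → Set (ℕ → ℕ) := fun k =>
    {c ∈ Pt n | 2 ≤ k ∧ 2 * (c 1 + 1) = ∑ j ∈ range k, (c (j + 1) + 1)} with hB
  have hsub : {c ∈ Pt n | Bad c} ⊆ (⋃ k ∈ range (L + 3), B k) ∪ AA n L := by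
    rintro c ⟨hc, k, hk2, hk⟩
    by_cases hkL : k < L + 3
    · left
      simp only [Set.mem_iUnion]
      exact ⟨k, Finset.mem_range.mpr hkL, hc, hk2, hk⟩
    · right
      refine ⟨hc, ?_⟩
      have h1 : ∑ j ∈ range (L + 2), (c (j + 1) + 1) ≤ ∑ j ∈ range k, (c (j + 1) + 1) := by
        apply Finset.sum_le_sum_of_subset
        intro x hx
        rw [Finset.mem_range] at hx ⊢
        omega
      have h2 : ∑ j ∈ range (L + 2), (c (j + 1) + 1) =
          ∑ i ∈ range L, c (i + 2) + c (L + 2) + (L + 1) + (c 1 + 1) := by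
        rw [Finset.sum_range_succ', Finset.sum_range_succ, Finset.sum_add_distrib]
        simp only [Finset.sum_const, Finset.card_range, smul_eq_mul, mul_one, zero_add]
        have : ∑ x ∈ range L, c (x + 1 + 1) = ∑ i ∈ range L, c (i + 2) := rfl
        rw [this]
        have : c (L + 1 + 1) = c (L + 2) := rfl
        rw [this]
        ring
      omega
  have hBle : ∀ k, (B k).ncard ≤ (Pe n).ncard := by
    intro k
    apply ncard_det_le (by omega) _ (fun c hc => hc.1)
    rintro c ⟨hc, hk2, hck⟩ d ⟨hd, -, hdk⟩ h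
    obtain ⟨k', rfl⟩ : ∃ k', k = k' + 1 := ⟨k - 1, by omega⟩
    rw [Finset.sum_range_succ'] at hck hdk
    have : ∑ j ∈ range k', (c (j + 1 + 1) + 1) = ∑ j ∈ range k', (d (j + 1 + 1) + 1) := by
      apply Finset.sum_congr rfl
      intro j _
      rw [h (j + 1 + 1) (by omega)]
    simp only [zero_add] at hck hdk
    omega
  have hfin : ((⋃ k ∈ range (L + 3), B k) ∪ AA n L).Finite := by
    apply (finite_Pt n).subset
    rintro c (hc | hc)
    · simp only [Set.mem_iUnion] at hc
      obtain ⟨k, -, hc⟩ := hc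
      exact hc.1
    · exact hc.1
  refine (Set.ncard_le_ncard hsub hfin).trans ((Set.ncard_union_le _ _).trans ?_)
  apply Nat.add_le_add_right
  have h3 : ∀ s : Finset ℕ, (⋃ k ∈ s, B k).ncard ≤ s.card * (Pe n).ncard := by
    intro s
    induction s using Finset.induction_on with
    | empty => simp
    | insert a s ha ih =>
      rw [Finset.set_biUnion_insert, Finset.card_insert_of_notMem ha]
      refine (Set.ncard_union_le _ _).trans ?_
      have := hBle a
      nlinarith
  have := h3 (range (L + 3))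
  rwa [Finset.card_range] at this

/-! ### Asymptotics -/

lemma elder' (n D : ℕ) : ((D : ℝ) + 1) * ((Pe n).ncard : ℝ) ≤
    (Pt n).ncard + (D + 1) * (((n : ℝ) + 1) * (n + 1)) ^ D := by
  classical
  have h1 := elder n
  have h2 := few n D
  have h3 : (D + 1) * ((finite_Pe n).toFinset.filter (fun c => ¬ dst n c ≤ D)).card ≤
      ∑ c ∈ (finite_Pe n).toFinset, dst n c := by
    refine le_trans ?_ (Finset.sum_le_sum_of_subset (Finset.filter_subset
      (fun c => ¬ dst n c ≤ D) _))
    rw [mul_comm, ← smul_eq_mul]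
    apply Finset.card_nsmul_le_sum
    intro c hc
    rw [Finset.mem_filter] at hc
    omega
  have h4 : (Pe n).ncard = ((finite_Pe n).toFinset.filter (fun c => dst n c ≤ D)).card +
      ((finite_Pe n).toFinset.filter (fun c => ¬ dst n c ≤ D)).card := by
    rw [Finset.card_filter_add_card_filter_not, Set.ncard_eq_toFinset_card _ (finite_Pe n)]
  have h5 : {c ∈ Pe n | dst n c ≤ D}.ncard =
      ((finite_Pe n).toFinset.filter (fun c => dst n c ≤ D)).card := by
    rw [← Set.ncard_coe_finset]
    congr 1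
    ext c
    simp
  rw [h5] at h2
  have h6 : (D + 1) * (Pe n).ncard ≤ (Pt n).ncard + (D + 1) * ((n + 1) * (n + 1)) ^ D := by
    rw [h4]
    nlinarith
  exact_mod_cast h6

lemma ratio_tendsto : Tendsto (fun n => ((Pe n).ncard : ℝ) / (Pt n).ncard) atTop (𝓝 0) := by
  rw [Metric.tendsto_atTop]
  intro ε hε
  obtain ⟨D, hD⟩ := exists_nat_one_div_lt (show (0 : ℝ) < ε / 2 by linarith)
  -- the second term tends to zero
  have hk : Tendsto (fun n : ℕ => Nat.sqrt (n / 2)) atTop atTop := by
    apply tendsto_atTop.mpr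
    intro b
    filter_upwards [eventually_ge_atTop (2 * (b * b))] with n hn
    rw [Nat.le_sqrt]
    omega
  have h1 : Tendsto (fun k : ℕ => ((k + 1 : ℕ) : ℝ) ^ (4 * D) / 2 ^ (k + 1)) atTop (𝓝 0) :=
    (tendsto_pow_const_div_const_pow_of_one_lt (4 * D) (by norm_num : (1 : ℝ) < 2)).comp
      (tendsto_add_atTop_nat 1)
  have h2 : Tendsto (fun n : ℕ => (2 * 4 ^ D : ℝ) * (((Nat.sqrt (n / 2) + 1 : ℕ) : ℝ) ^ (4 * D) /
      2 ^ (Nat.sqrt (n / 2) + 1))) atTop (𝓝 0) := by
    have := (h1.comp hk).const_mul (2 * 4 ^ D : ℝ)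
    rw [mul_zero] at this
    exact this
  have h3 := (Metric.tendsto_atTop.mp h2) (ε / 2) (by linarith)
  obtain ⟨N, hN⟩ := h3
  refine ⟨max N 2, fun n hn => ?_⟩
  have hn1 : N ≤ n := le_trans (le_max_left _ _) hn
  have hn2 : 2 ≤ n := le_trans (le_max_right _ _) hn
  have hb := hN n hn1
  rw [Real.dist_eq, sub_zero, abs_of_nonneg (by positivity)] at hb ⊢
  set k := Nat.sqrt (n / 2) with hkdef
  have hk1 : 1 ≤ k := by
    rw [hkdef, Nat.le_sqrt]
    omega
  have hk2 : 2 * k ^ 2 ≤ n := by
    have := Nat.sqrt_le' (n / 2)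
    rw [← hkdef] at this
    omega
  have hk3 : n + 1 ≤ 2 * (k + 1) ^ 2 := by
    have := Nat.lt_succ_sqrt' (n / 2)
    rw [← hkdef] at this
    simp only [Nat.succ_eq_add_one] at this
    omega
  have hmany := many n k hk2 hk1
  have hPe : (2 : ℝ) ^ k ≤ ((Pe n).ncard : ℝ) := by exact_mod_cast hmany
  have hle : ((Pe n).ncard : ℝ) ≤ ((Pt n).ncard : ℝ) := by
    exact_mod_cast Set.ncard_le_ncard (Pe_sub n) (finite_Pt n)
  have h2k : (0 : ℝ) < 2 ^ k := by positivity
  have htpos : (0 : ℝ) < ((Pt n).ncard : ℝ) := by linarith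
  have he := elder' n D
  have hDpos : (0 : ℝ) < (D : ℝ) + 1 := by positivity
  have hmain : ((Pe n).ncard : ℝ) / (Pt n).ncard ≤
      1 / ((D : ℝ) + 1) + (((n : ℝ) + 1) * (n + 1)) ^ D / 2 ^ k := by
    have e1 : ((Pe n).ncard : ℝ) ≤ (Pt n).ncard / ((D : ℝ) + 1) +
        (((n : ℝ) + 1) * (n + 1)) ^ D := by
      rw [← sub_le_iff_le_add, le_div_iff₀ hDpos]
      nlinarith
    calc ((Pe n).ncard : ℝ) / (Pt n).ncard ≤ ((Pt n).ncard / ((D : ℝ) + 1) +
        (((n : ℝ) + 1) * (n + 1)) ^ D) / (Pt n).ncard :=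
          div_le_div_of_nonneg_right e1 htpos.le
      _ = 1 / ((D : ℝ) + 1) + (((n : ℝ) + 1) * (n + 1)) ^ D / (Pt n).ncard := by
          field_simp
      _ ≤ 1 / ((D : ℝ) + 1) + (((n : ℝ) + 1) * (n + 1)) ^ D / 2 ^ k := by
          gcongr
          linarith
  have hpow : (((n : ℝ) + 1) * (n + 1)) ^ D / 2 ^ k ≤
      (2 * 4 ^ D : ℝ) * (((k + 1 : ℕ) : ℝ) ^ (4 * D) / 2 ^ (k + 1)) := by
    have e1 : (n : ℝ) + 1 ≤ 2 * ((k : ℝ) + 1) ^ 2 := by exact_mod_cast hk3
    have e2 : (((n : ℝ) + 1) * (n + 1)) ^ D ≤ ((2 * ((k : ℝ) + 1) ^ 2) * (2 * ((k : ℝ) + 1) ^ 2)) ^ D := by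
      gcongr
    have e3 : ((2 * ((k : ℝ) + 1) ^ 2) * (2 * ((k : ℝ) + 1) ^ 2)) ^ D =
        4 ^ D * ((k : ℝ) + 1) ^ (4 * D) := by
      rw [pow_mul, ← mul_pow]
      congr 1
      ring
    rw [e3] at e2
    have e4 : (2 * 4 ^ D : ℝ) * (((k + 1 : ℕ) : ℝ) ^ (4 * D) / 2 ^ (k + 1)) =
        4 ^ D * ((k : ℝ) + 1) ^ (4 * D) / 2 ^ k := by
      rw [pow_succ]
      push_cast
      field_simp
    rw [e4]
    exact div_le_div_of_nonneg_right e2 h2k.le
  linarith

/-- The proportion of the partitions of size at most `n` which are associated to numerical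
semigroups tends to zero. -/
theorem result : Tendsto (fun n => (S' n : ℝ) / P n) atTop (𝓝 0) := by
  rw [Metric.tendsto_atTop]
  intro ε hε
  obtain ⟨J', hJ'⟩ := exists_nat_one_div_lt (show (0 : ℝ) < ε / 2 by linarith)
  set J := J' + 1 with hJ
  set L := 2 * J with hL
  have h1 : Tendsto (fun n => ((L : ℝ) + 5) * (((Pe n).ncard : ℝ) / (Pt n).ncard)) atTop (𝓝 0) := by
    have := ratio_tendsto.const_mul ((L : ℝ) + 5)
    rw [mul_zero] at this
    exact this
  obtain ⟨N, hN⟩ := (Metric.tendsto_atTop.mp h1) (ε / 2) (by linarith)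
  refine ⟨max N (L + 2), fun n hn => ?_⟩
  have hn1 : N ≤ n := le_trans (le_max_left _ _) hn
  have hn2 : L + 2 ≤ n := le_trans (le_max_right _ _) hn
  have hb := hN n hn1
  rw [Real.dist_eq, sub_zero, abs_of_nonneg (by positivity)] at hb ⊢
  have hS : (S' n : ℝ) ≤ ((L : ℝ) + 3) * (Pe n).ncard + (AA n L).ncard := by
    exact_mod_cast (S'_le n).trans (bad_le hn2)
  have hAA : (J : ℝ) * (AA n L).ncard ≤ (Pt n).ncard + 2 * J * (Pe n).ncard := by
    exact_mod_cast AA_le (J := J) hn2 (by omega)
  have hP : ((Pt n).ncard : ℝ) ≤ P n := by exact_mod_cast le_P n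
  have hmany := many n 1 (by omega) (le_refl 1)
  have hPe : (2 : ℝ) ≤ ((Pe n).ncard : ℝ) := by exact_mod_cast hmany
  have hle : ((Pe n).ncard : ℝ) ≤ ((Pt n).ncard : ℝ) := by
    exact_mod_cast Set.ncard_le_ncard (Pe_sub n) (finite_Pt n)
  have htpos : (0 : ℝ) < ((Pt n).ncard : ℝ) := by linarith
  have hJpos : (0 : ℝ) < (J : ℝ) := by rw [hJ]; positivity
  have hJ2 : 1 / (J : ℝ) < ε / 2 := by
    rw [hJ]
    push_cast
    exact hJ'
  have hAA2 : ((AA n L).ncard : ℝ) ≤ (Pt n).ncard / J + 2 * (Pe n).ncard := by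
    rw [← sub_le_iff_le_add, le_div_iff₀ hJpos]
    nlinarith
  calc (S' n : ℝ) / P n ≤ (S' n : ℝ) / (Pt n).ncard := by gcongr
    _ ≤ (((L : ℝ) + 3) * (Pe n).ncard + ((Pt n).ncard / J + 2 * (Pe n).ncard)) / (Pt n).ncard := by
        gcongr
        linarith
    _ = 1 / (J : ℝ) + ((L : ℝ) + 5) * (((Pe n).ncard : ℝ) / (Pt n).ncard) := by
        field_simp
        ring
    _ < ε := by linarith

end Pool.Agent.Results.MP_8c5ed8_co.LimitZero
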